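import Mathlib

/-!
Erdős–Graham: is `f(N) = o(N)` for almost all `N`, where `f(N)` is the least `n` such that `N` is an
initial sum of the increasing sequence of divisors `> 1` of `n`?  The answer is no.
-/

namespace Pool.Agent.Results.MP_d49c4f_nt.NotLittleO

open Finset Filter Topology

/-- `S n D` is the sum of the divisors `d` of `n` with `1 < d ≤ D`. -/
def S (n D : ℕ) : ℕ := ∑ d ∈ n.divisors.filter (fun d => 1 < d ∧ d ≤ D), d

/-- `DS n` is the set `D_n` of nonempty initial sums of the increasing sequence of the divisors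
`> 1` of `n`: the sums `S n D` where `D` runs through the divisors `> 1` of `n`. (It is empty for
`n = 0` and `n = 1`; recall `Nat.divisors 0 = ∅`.) -/
def DS (n : ℕ) : Set ℕ := {N | ∃ D ∈ n.divisors, 1 < D ∧ N = S n D}

/-- `N` is representable if `N ∈ D_n` for some `n`. -/
def Representable (N : ℕ) : Prop := ∃ n, N ∈ DS n

/-- `f N` is the least `n` with `N ∈ D_n` (for representable `N`). -/
noncomputable def f (N : ℕ) : ℕ := sInf {n | N ∈ DS n}

/-- Natural density zero. -/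
def DensityZero (E : Set ℕ) : Prop :=
  Tendsto (fun x : ℕ => ((E ∩ Set.Icc 1 x).ncard : ℝ) / x) atTop (𝓝 0)

theorem sum_inv_sq (a y : ℕ) (ha : 1 ≤ a) :
    ∑ b ∈ (Icc 1 y).filter (fun b => a ≤ b), ((b : ℝ) ^ 2)⁻¹ ≤ 2 / a := by
  have h := sum_Ioo_inv_sq_le (α := ℝ) (a - 1) (y + 1)
  have e : ((a - 1 : ℕ) : ℝ) + 1 = a := by
    rw [Nat.cast_sub ha]; ring
  rw [e] at h
  refine le_trans (le_of_eq ?_) h
  apply Finset.sum_congr _ (fun _ _ => rfl)
  ext b
  simp only [mem_filter, mem_Icc, mem_Ioo]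
  omega

theorem sum_inv_sq' (y : ℕ) : ∑ b ∈ Icc 1 y, ((b : ℝ) ^ 2)⁻¹ ≤ 2 := by
  have h := sum_inv_sq 1 y le_rfl
  rw [Finset.filter_true_of_mem] at h
  · simpa using h
  · intro b hb
    exact (mem_Icc.1 hb).1

/-- The quadruples used in the double counting. -/
def T (y : ℕ) : Finset (ℕ × ℕ × ℕ × ℕ) :=
  ((Icc 1 y) ×ˢ (Icc 1 y) ×ˢ (Icc 1 y) ×ˢ (Icc 1 y)).filter
    (fun t => t.2.1 ≤ t.2.2.1 ∧ t.1 * t.2.1 * t.2.2.1 * t.2.2.2 ≤ y)

theorem sum_T (y : ℕ) : ∑ t ∈ T y, (1 : ℝ) / (t.1 * t.2.2.1) ≤ 8 * y := by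
  rw [T, Finset.sum_filter, Finset.sum_product]
  simp only [Finset.sum_product]
  have h1 : ∀ g ∈ Icc 1 y, ∀ a ∈ Icc 1 y, ∀ b ∈ Icc 1 y,
      (∑ c ∈ Icc 1 y, if a ≤ b ∧ g * a * b * c ≤ y then (1 : ℝ) / (g * b) else 0) ≤
        y * (((g : ℝ) ^ 2)⁻¹ * ((a : ℝ)⁻¹ * (if a ≤ b then ((b : ℝ) ^ 2)⁻¹ else 0))) := by
    intro g hg a ha b hb
    rw [mem_Icc] at hg ha hb
    have hg0 : (0 : ℝ) < g := by exact_mod_cast hg.1
    have ha0 : (0 : ℝ) < a := by exact_mod_cast ha.1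
    have hb0 : (0 : ℝ) < b := by exact_mod_cast hb.1
    by_cases hab : a ≤ b
    · simp only [hab, true_and, if_true]
      rw [← Finset.sum_filter, Finset.sum_const, nsmul_eq_mul]
      have hcard : (((Icc 1 y).filter (fun c => g * a * b * c ≤ y)).card : ℝ) ≤
          y / (g * a * b) := by
        have hsub : (Icc 1 y).filter (fun c => g * a * b * c ≤ y) ⊆ Icc 1 (y / (g * a * b)) := by
          intro c hc
          rw [mem_filter, mem_Icc] at hc
          rw [mem_Icc]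
          refine ⟨hc.1.1, ?_⟩
          rw [Nat.le_div_iff_mul_le (by have := hg.1; have := ha.1; have := hb.1; positivity)]
          rw [mul_comm]
          exact hc.2
        have h2 := Finset.card_le_card hsub
        rw [Nat.card_Icc, Nat.add_sub_cancel] at h2
        have h3 : (((Icc 1 y).filter (fun c => g * a * b * c ≤ y)).card : ℝ) ≤
            ((y / (g * a * b) : ℕ) : ℝ) := by exact_mod_cast h2
        refine h3.trans ?_
        have h4 := Nat.cast_div_le (α := ℝ) (m := y) (n := g * a * b)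
        push_cast at h4
        exact h4
      calc _ ≤ (y / (g * a * b) : ℝ) * (1 / (g * b)) := by gcongr
        _ = _ := by field_simp
    · simp [hab]
  calc _ ≤ ∑ g ∈ Icc 1 y, ∑ a ∈ Icc 1 y, ∑ b ∈ Icc 1 y,
        y * (((g : ℝ) ^ 2)⁻¹ * ((a : ℝ)⁻¹ * (if a ≤ b then ((b : ℝ) ^ 2)⁻¹ else 0))) := by
        refine Finset.sum_le_sum fun g hg => Finset.sum_le_sum fun a ha =>
          Finset.sum_le_sum fun b hb => h1 g hg a ha b hb
    _ = y * ((∑ g ∈ Icc 1 y, ((g : ℝ) ^ 2)⁻¹) * ∑ a ∈ Icc 1 y, (a : ℝ)⁻¹ *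
          ∑ b ∈ Icc 1 y, (if a ≤ b then ((b : ℝ) ^ 2)⁻¹ else 0)) := by
        rw [Finset.sum_mul, Finset.mul_sum]
        refine Finset.sum_congr rfl fun g _ => ?_
        simp only [Finset.mul_sum]
    _ ≤ y * (2 * ∑ a ∈ Icc 1 y, (a : ℝ)⁻¹ * (2 / a)) := by
        have h2 : ∀ a ∈ Icc 1 y, (a : ℝ)⁻¹ *
            ∑ b ∈ Icc 1 y, (if a ≤ b then ((b : ℝ) ^ 2)⁻¹ else 0) ≤ (a : ℝ)⁻¹ * (2 / a) := by
          intro a ha
          rw [← Finset.sum_filter]
          have := sum_inv_sq a y (mem_Icc.1 ha).1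
          gcongr
        have h3 : (0 : ℝ) ≤ ∑ a ∈ Icc 1 y, (a : ℝ)⁻¹ *
            ∑ b ∈ Icc 1 y, (if a ≤ b then ((b : ℝ) ^ 2)⁻¹ else 0) := by
          refine Finset.sum_nonneg fun a _ => mul_nonneg (by positivity)
            (Finset.sum_nonneg fun b _ => ?_)
          split_ifs <;> positivity
        have h4 := Finset.sum_le_sum h2
        have h5 := sum_inv_sq' y
        gcongr
    _ = y * (4 * ∑ a ∈ Icc 1 y, ((a : ℝ) ^ 2)⁻¹) := by
        congr 1
        rw [Finset.mul_sum, Finset.mul_sum]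
        refine Finset.sum_congr rfl fun a _ => ?_
        rw [pow_two, mul_inv]; ring
    _ ≤ y * (4 * 2) := by
        have h5 := sum_inv_sq' y
        gcongr
    _ = 8 * y := by ring

/-- The triples `(n, (D, d))` with `D, d ∣ n`, `d ≤ D`. -/
def Src (y : ℕ) : Finset (Σ _ : ℕ, ℕ × ℕ) :=
  (Icc 1 y).sigma (fun n => (n.divisors ×ˢ n.divisors).filter (fun p => p.2 ≤ p.1))

theorem src_sub (y : ℕ) : Src y ⊆ (T y).image
    (fun t => (⟨t.1 * t.2.1 * t.2.2.1 * t.2.2.2, (t.2.2.1 * t.2.2.2, t.2.1 * t.2.2.2)⟩ :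
      Σ _ : ℕ, ℕ × ℕ)) := by
  rintro ⟨n, D, d⟩ h
  rw [Src, mem_sigma, mem_filter, mem_product, Nat.mem_divisors, Nat.mem_divisors] at h
  obtain ⟨hn, ⟨⟨hD, _⟩, hd, _⟩, hle⟩ := h
  simp only [mem_Icc] at hn hD hd hle
  rw [mem_image]
  have hn0 : 0 < n := hn.1
  have hd0 : 0 < d := Nat.pos_of_dvd_of_pos hd hn0
  have hD0 : 0 < D := Nat.pos_of_dvd_of_pos hD hn0
  obtain ⟨a, b, hab, ea, eb⟩ := Nat.exists_coprime d D
  set c := Nat.gcd d D with hc
  have hc0 : 0 < c := Nat.gcd_pos_of_pos_left _ hd0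
  have hlcm : a * b * c ∣ n := by
    have h1 : a * c ∣ n := ea ▸ hd
    have h2 : b * c ∣ n := eb ▸ hD
    have h3 : c ∣ n := dvd_trans (Dvd.intro_left _ rfl) h1
    obtain ⟨m, hm⟩ := h3
    have h4 : a ∣ m := by
      rw [hm, mul_comm a c] at h1
      exact Nat.dvd_of_mul_dvd_mul_left hc0 h1
    have h5 : b ∣ m := by
      rw [hm, mul_comm b c] at h2
      exact Nat.dvd_of_mul_dvd_mul_left hc0 h2
    have h6 : a * b ∣ m := hab.mul_dvd_of_dvd_of_dvd h4 h5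
    rw [hm, mul_comm (a * b) c]
    exact Nat.mul_dvd_mul_left c h6
  obtain ⟨g, hg⟩ := hlcm
  have ha0 : 0 < a := by
    rcases Nat.eq_zero_or_pos a with h | h
    · rw [h, zero_mul] at ea; omega
    · exact h
  have hb0 : 0 < b := by
    rcases Nat.eq_zero_or_pos b with h | h
    · rw [h, zero_mul] at eb; omega
    · exact h
  have hg0 : 0 < g := by
    rcases Nat.eq_zero_or_pos g with h | h
    · rw [h, mul_zero] at hg; omega
    · exact h
  have hn' : g * a * b * c = n := by rw [hg]; ring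
  have key : ∀ z, z ∣ n → 0 < z → z ∈ Icc 1 y := by
    intro z hz hz0
    rw [mem_Icc]
    exact ⟨hz0, (Nat.le_of_dvd hn0 hz).trans hn.2⟩
  refine ⟨(g, a, b, c), ?_, ?_⟩
  · rw [T, mem_filter]
    simp only [mem_product]
    refine ⟨⟨key g ⟨a * b * c, by rw [← hn']; ring⟩ hg0, key a ⟨g * b * c, by rw [← hn']; ring⟩ ha0,
      key b ⟨g * a * c, by rw [← hn']; ring⟩ hb0, key c ⟨g * a * b, by rw [← hn']; ring⟩ hc0⟩, ?_, ?_⟩
    · rw [ea, eb] at hle
      exact Nat.le_of_mul_le_mul_right hle hc0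
    · rw [hn']; exact hn.2
  · simp only [hn', ← ea, ← eb]

theorem sum_Src (y : ℕ) : ∑ s ∈ Src y, (s.2.2 : ℝ) / s.1 ≤ 8 * y := by
  refine (Finset.sum_le_sum_of_subset_of_nonneg (src_sub y) ?_).trans ?_
  · intro i _ _
    positivity
  refine (Finset.sum_image_le_of_nonneg ?_).trans ?_
  · intro i _
    positivity
  refine le_trans (le_of_eq ?_) (sum_T y)
  refine Finset.sum_congr rfl ?_
  rintro ⟨g, a, b, c⟩ ht
  rw [T, mem_filter] at ht
  simp only [mem_product, mem_Icc] at ht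
  have hg0 : (0 : ℝ) < g := by exact_mod_cast ht.1.1.1
  have ha0 : (0 : ℝ) < a := by exact_mod_cast ht.1.2.1.1
  have hb0 : (0 : ℝ) < b := by exact_mod_cast ht.1.2.2.1.1
  have hc0 : (0 : ℝ) < c := by exact_mod_cast ht.1.2.2.2.1
  simp only []
  push_cast
  field_simp

theorem sum_S (y : ℕ) : ∑ n ∈ Icc 1 y, ∑ D ∈ n.divisors, (S n D : ℝ) / n ≤ 8 * y := by
  refine le_trans ?_ (sum_Src y)
  rw [Src, Finset.sum_sigma]
  refine Finset.sum_le_sum fun n hn => ?_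
  rw [Finset.sum_filter, Finset.sum_product]
  refine Finset.sum_le_sum fun D hD => ?_
  rw [← Finset.sum_filter, S, Nat.cast_sum, Finset.sum_div]
  apply Finset.sum_le_sum_of_subset_of_nonneg
  · intro d hd
    rw [mem_filter] at hd ⊢
    exact ⟨hd.1, hd.2.2⟩
  · intro i _ _
    positivity

/-- The pairs `(n, D)` with `S n D ≥ n / ε`. -/
noncomputable def P (ε : ℝ) (y : ℕ) : Finset (Σ _ : ℕ, ℕ) := by
  classical
  exact (Icc 1 y).sigma (fun n => n.divisors.filter (fun D => (n : ℝ) ≤ ε * S n D))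

theorem card_P (ε : ℝ) (hε : 0 < ε) (y : ℕ) : ((P ε y).card : ℝ) ≤ 8 * ε * y := by
  classical
  have h1 : ((P ε y).card : ℝ) = ∑ s ∈ P ε y, (1 : ℝ) := by simp
  rw [h1, P, Finset.sum_sigma]
  calc _ ≤ ∑ n ∈ Icc 1 y, ∑ D ∈ n.divisors, ε * ((S n D : ℝ) / n) := by
        refine Finset.sum_le_sum fun n hn => ?_
        have hn0 : (0 : ℝ) < n := by exact_mod_cast (mem_Icc.1 hn).1
        calc _ ≤ ∑ D ∈ n.divisors.filter (fun D => (n : ℝ) ≤ ε * S n D), ε * ((S n D : ℝ) / n) := by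
              refine Finset.sum_le_sum fun D hD => ?_
              rw [mem_filter] at hD
              rw [← mul_div_assoc, one_le_div hn0]
              exact hD.2
          _ ≤ _ := by
              apply Finset.sum_le_sum_of_subset_of_nonneg (Finset.filter_subset _ _)
              intro i _ _
              positivity
    _ = ε * ∑ n ∈ Icc 1 y, ∑ D ∈ n.divisors, (S n D : ℝ) / n := by
        simp only [Finset.mul_sum]
    _ ≤ ε * (8 * y) := by
        have := sum_S y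
        gcongr
    _ = 8 * ε * y := by ring

/-- Quantitative statement: for every `ε > 0` and every `x`, at most `8 ε² x` of the integers
`N ∈ [1, x]` are representable with `f(N) ≤ ε N`. -/
theorem quant (ε : ℝ) (hε : 0 < ε) (x : ℕ) :
    ({N : ℕ | 1 ≤ N ∧ N ≤ x ∧ Representable N ∧ (f N : ℝ) ≤ ε * N}.ncard : ℝ) ≤ 8 * ε ^ 2 * x := by
  classical
  set y := ⌊ε * x⌋₊ with hy
  have hsub : {N : ℕ | 1 ≤ N ∧ N ≤ x ∧ Representable N ∧ (f N : ℝ) ≤ ε * N} ⊆
      (((P ε y).image (fun s => S s.1 s.2) : Finset ℕ) : Set ℕ) := by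
    rintro N ⟨hN1, hNx, hR, hf⟩
    have hmem : N ∈ DS (f N) := Nat.sInf_mem hR
    obtain ⟨D, hD, hD1, hND⟩ := hmem
    rw [Finset.mem_coe, mem_image]
    refine ⟨⟨f N, D⟩, ?_, hND.symm⟩
    rw [P, mem_sigma, mem_filter, mem_Icc]
    have hf0 : f N ≠ 0 := (Nat.mem_divisors.1 hD).2
    refine ⟨⟨Nat.one_le_iff_ne_zero.2 hf0, ?_⟩, hD, ?_⟩
    · apply Nat.le_floor
      refine hf.trans ?_
      have : (N : ℝ) ≤ x := by exact_mod_cast hNx
      gcongr
    · simp only []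
      rw [← hND]
      exact hf
  have h1 := Set.ncard_le_ncard hsub (Finset.finite_toSet _)
  rw [Set.ncard_coe_finset] at h1
  have h2 : ({N : ℕ | 1 ≤ N ∧ N ≤ x ∧ Representable N ∧ (f N : ℝ) ≤ ε * N}.ncard : ℝ) ≤
      (P ε y).card := by exact_mod_cast h1.trans Finset.card_image_le
  refine h2.trans ((card_P ε hε y).trans ?_)
  have h3 : (y : ℝ) ≤ ε * x := Nat.floor_le (by positivity)
  calc 8 * ε * (y : ℝ) ≤ 8 * ε * (ε * x) := by gcongr
    _ = 8 * ε ^ 2 * x := by ring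

/-- **Negative answer to Q1.**  There is no set `E` of natural density zero such that for every
`ε > 0`, all sufficiently large `N ∉ E` are representable with `f(N) ≤ ε N`.  In fact (first part)
for every `ε > 0` and every `x`, at most `8 ε² x` integers `N ∈ [1, x]` are representable and
satisfy `f(N) ≤ ε N`. -/
theorem result :
    (∀ ε : ℝ, 0 < ε → ∀ x : ℕ,
      ({N : ℕ | 1 ≤ N ∧ N ≤ x ∧ Representable N ∧ (f N : ℝ) ≤ ε * N}.ncard : ℝ) ≤
        8 * ε ^ 2 * x) ∧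
    ¬ ∃ E : Set ℕ, DensityZero E ∧ ∀ ε : ℝ, 0 < ε → ∃ N₀ : ℕ, ∀ N : ℕ, N₀ ≤ N → N ∉ E →
      Representable N ∧ (f N : ℝ) ≤ ε * N := by
  refine ⟨quant, ?_⟩
  rintro ⟨E, hE, h⟩
  obtain ⟨N₀, hN₀⟩ := h (1 / 4) (by norm_num)
  -- for large x, |E ∩ [1,x]| ≤ x/4
  have h1 : ∀ᶠ x : ℕ in atTop, ((E ∩ Set.Icc 1 x).ncard : ℝ) / x < 1 / 8 :=
    hE.eventually (gt_mem_nhds (by norm_num))
  obtain ⟨x, hx1, hx2⟩ := (h1.and (eventually_ge_atTop (8 * (N₀ + 1)))).exists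
  have hx0 : (0 : ℝ) < x := by
    have : 0 < x := by omega
    exact_mod_cast this
  rw [div_lt_iff₀ hx0] at hx1
  have hcov : Set.Icc 1 x ⊆ (Set.Icc 1 N₀) ∪ ((E ∩ Set.Icc 1 x) ∪
      {N : ℕ | 1 ≤ N ∧ N ≤ x ∧ Representable N ∧ (f N : ℝ) ≤ 1 / 4 * N}) := by
    intro N hN
    rcases Nat.lt_or_ge N N₀ with h2 | h2
    · left; exact ⟨hN.1, h2.le⟩
    · right
      by_cases hNE : N ∈ E
      · left; exact ⟨hNE, hN⟩
      · right
        exact ⟨hN.1, hN.2, hN₀ N h2 hNE⟩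
  have hfin3 : {N : ℕ | 1 ≤ N ∧ N ≤ x ∧ Representable N ∧ (f N : ℝ) ≤ 1 / 4 * N}.Finite :=
    (Set.finite_Icc 1 x).subset (fun N hN => ⟨hN.1, hN.2.1⟩)
  have hfin2 : (E ∩ Set.Icc 1 x).Finite := (Set.finite_Icc 1 x).subset Set.inter_subset_right
  have h3 := Set.ncard_le_ncard hcov ((Set.finite_Icc 1 N₀).union (hfin2.union hfin3))
  have h4 := h3.trans (Set.ncard_union_le _ _)
  have h5 := Set.ncard_union_le (E ∩ Set.Icc 1 x)
    {N : ℕ | 1 ≤ N ∧ N ≤ x ∧ Representable N ∧ (f N : ℝ) ≤ 1 / 4 * N}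
  have e1 : (Set.Icc 1 x).ncard = x := by
    rw [Set.ncard_eq_toFinset_card', Set.toFinset_Icc, Nat.card_Icc]; omega
  have e2 : (Set.Icc 1 N₀).ncard = N₀ := by
    rw [Set.ncard_eq_toFinset_card', Set.toFinset_Icc, Nat.card_Icc]; omega
  rw [e1, e2] at h4
  have h6 := quant (1 / 4) (by norm_num) x
  have h7 : (x : ℝ) ≤ N₀ + ((E ∩ Set.Icc 1 x).ncard +
      ({N : ℕ | 1 ≤ N ∧ N ≤ x ∧ Representable N ∧ (f N : ℝ) ≤ 1 / 4 * N}.ncard : ℝ)) := by
    exact_mod_cast h4.trans (Nat.add_le_add_left h5 _)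
  have h8 : (8 * (N₀ + 1) : ℝ) ≤ x := by exact_mod_cast hx2
  nlinarith

end Pool.Agent.Results.MP_d49c4f_nt.NotLittleO
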